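import Pool.Agent.Helper75.CR.St

/-!
# Project CR, module L4: words modulo the content preserving part of a congruence
-/

set_option autoImplicit false

namespace Pool.Agent.Helper16.CR

open Pool.Agent.Helper75.CR Helper1.IM

theorem hL4 (hL3 : StL3) : StL4 := by
  intro B S θ hC hS hP
  refine ⟨cP_cp θ, ?_, ?_, ?_, ?_⟩
  · intro u t hu ht
    obtain ⟨⟨s, hs, hc⟩, -, -⟩ := hL3 B S θ hC hS u t hu ht
    refine ⟨s, hs, ?_⟩
    rw [cn_append, cn_append, Finset.union_eq_left.2 ht, Finset.union_eq_left.2 hc]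
  · intro u t hu ht
    obtain ⟨-, ⟨s, hs, hc⟩, -⟩ := hL3 B S θ hC hS u t hu ht
    refine ⟨s, hs, ?_⟩
    rw [cn_append, cn_append]
    exact (Finset.union_eq_right.2 (Finset.union_subset hc ht)).symm
  · intro w hw
    obtain ⟨⟨q, h1, h2, h3⟩, -⟩ := hP w hw
    refine ⟨w ++ q, q, (cP θ).refl' _, ⟨h1, ?_⟩, fun b => ⟨h2 b, S.cng b _⟩, h3⟩
    rw [cn_append (w ++ q), Finset.union_self]
  · intro w hw
    obtain ⟨-, q, h1, h2, h3⟩ := hP w hw
    refine ⟨q ++ w, q, (cP θ).refl' _, ⟨h1, ?_⟩, fun b => ⟨h2 b, S.cng b _⟩, h3⟩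
    rw [cn_append (q ++ w), Finset.union_self]

end Pool.Agent.Helper16.CR
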