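import Pool.Agent.Helper75.CR.St

/-!
# Project CR, module M2: substitutions
-/

set_option autoImplicit false

namespace Pool.Agent.Helper16.CR

open Pool.Agent.Helper75.CR Helper1.IM

theorem hM2 : Helper75.CR.StM2 := by
  intro θ hS
  obtain ⟨x, y, hxy⟩ := hS
  have key : ∀ (i : ℕ) (b : Bool), θ.r [(i, b)] (sb (fun _ => [(i, b)]) x ++ [(i, !b)] ++
      sb (fun _ => [(i, b)]) y) := by
    intro i b
    have h := θ.sub' (fun _ => [(i, b)]) (fun _ => List.cons_ne_nil _ _) hxy
    have h1 : sb (fun _ => [(i, b)]) [X 0] = [(i, b)] := by simp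
    have h2 : sb (fun _ => [(i, b)]) (x ++ [Y 0] ++ y) = sb (fun _ => [(i, b)]) x ++ [(i, !b)] ++
        sb (fun _ => [(i, b)]) y := by
      rw [sb_append, sb_append, sb_Y, sb_nil, List.append_nil]
      rfl
    rw [h1, h2] at h
    exact h
  intro i b b'
  by_cases hb : b = b'
  · subst hb
    exact ⟨[], [], θ.refl' _⟩
  · have h1 : b' = !b := by
      cases b <;> cases b' <;> simp_all
    rw [h1]
    exact ⟨_, _, key i b⟩

end Pool.Agent.Helper16.CR
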